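import Pool.Agent.N580.AU.Stm

/-!
# Project AU, leaf COR: at most one of three arcs is long (helper581)
-/

set_option autoImplicit false

namespace Pool.Agent.N581.AU_COR

open Finset Pool.Agent.N580.AU

theorem cor (h : ARC) : COR := by
  intro M hM t X hX hne hT
  choose x L h1 hLM hcard hmem using fun σ => h M hM t (X σ) (hX σ) (hne σ)
  have m0 : ∀ σ, x σ ∈ X σ := by
    intro σ
    have := hmem σ 0 (h1 σ)
    simpa using this
  have m1 : ∀ σ, 2 ≤ L σ → x σ + 1 ∈ X σ := by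
    intro σ hσ
    have := hmem σ 1 (by omega)
    simpa using this
  have key : ∀ σ, 2 ≤ L σ → ∀ y : ZMod M, y + 1 = y → False := by
    intro σ hσ y hy
    have h10 : ((1 : ℕ) : ZMod M) = 0 := by
      have : (1 : ZMod M) = 0 := by
        have h2 : y + 1 = y + 0 := by rw [add_zero]; exact hy
        exact add_left_cancel h2
      simpa using this
    have hd := (ZMod.natCast_eq_zero_iff 1 M).1 h10
    have h3 := hLM σ
    have h4 := Nat.le_of_dvd one_pos hd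
    omega
  have p01 : ¬ (2 ≤ L 0 ∧ 2 ≤ L 1) := by
    rintro ⟨ha, hb⟩
    obtain ⟨e, -, -⟩ := hT (x 0 + 1) (m1 0 ha) (x 0) (m0 0) (x 1) (m0 1) (x 1 + 1) (m1 1 hb)
      (x 2) (m0 2) (x 2) (m0 2) (by ring)
    exact key 0 ha _ e
  have p02 : ¬ (2 ≤ L 0 ∧ 2 ≤ L 2) := by
    rintro ⟨ha, hb⟩
    obtain ⟨e, -, -⟩ := hT (x 0 + 1) (m1 0 ha) (x 0) (m0 0) (x 1) (m0 1) (x 1) (m0 1)
      (x 2) (m0 2) (x 2 + 1) (m1 2 hb) (by ring)
    exact key 0 ha _ e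
  have p12 : ¬ (2 ≤ L 1 ∧ 2 ≤ L 2) := by
    rintro ⟨ha, hb⟩
    obtain ⟨-, e, -⟩ := hT (x 0) (m0 0) (x 0) (m0 0) (x 1 + 1) (m1 1 ha) (x 1) (m0 1)
      (x 2) (m0 2) (x 2 + 1) (m1 2 hb) (by ring)
    exact key 1 ha _ e
  obtain ⟨τ, -, hτ⟩ := Finset.exists_max_image (univ : Finset (Fin 3)) L ⟨0, mem_univ 0⟩
  have hτ' : ∀ σ, L σ ≤ L τ := fun σ => hτ σ (mem_univ σ)
  have hpos : L τ ≠ 0 := by have := h1 τ; omega
  have hs1 : 2 ^ Nat.log 2 (L τ) ≤ L τ := Nat.pow_log_le_self 2 hpos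
  have hs2 : L τ < 2 ^ (Nat.log 2 (L τ) + 1) := Nat.lt_pow_succ_log_self (by norm_num) (L τ)
  have hprod : L 0 * L 1 * L 2 ≤ L τ := by
    have a0 := h1 0
    have a1 := h1 1
    have a2 := h1 2
    have b0 := hτ' 0
    have b1 := hτ' 1
    have b2 := hτ' 2
    rcases (by omega : (L 0 = 1 ∧ L 1 = 1) ∨ (L 0 = 1 ∧ L 2 = 1) ∨ (L 1 = 1 ∧ L 2 = 1)) with
      ⟨e1, e2⟩ | ⟨e1, e2⟩ | ⟨e1, e2⟩
    · rw [e1, e2]; simpa using b2
    · rw [e1, e2]; simpa using b1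
    · rw [e1, e2]; simpa using b0
  refine ⟨τ, Nat.log 2 (L τ), x, hs1.trans (hLM τ), ?_, ?_⟩
  · calc (X 0).card * (X 1).card * (X 2).card ≤ (t * L 0) * (t * L 1) * (t * L 2) :=
        Nat.mul_le_mul (Nat.mul_le_mul (hcard 0) (hcard 1)) (hcard 2)
      _ = t ^ 3 * (L 0 * L 1 * L 2) := by ring
      _ ≤ t ^ 3 * (2 * 2 ^ Nat.log 2 (L τ)) := by
        refine Nat.mul_le_mul_left _ (hprod.trans ?_)
        rw [pow_succ] at hs2
        omega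
      _ = 2 * t ^ 3 * 2 ^ Nat.log 2 (L τ) := by ring
  · intro σ y hy
    by_cases hσ : σ = τ
    · rw [if_pos hσ] at hy
      subst hσ
      exact hmem σ y (lt_of_lt_of_le hy hs1)
    · rw [if_neg hσ] at hy
      exact hmem σ y (lt_of_lt_of_le hy (h1 σ))

end Pool.Agent.N581.AU_COR
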