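import Pool.Agent.N979.P1.Stm
import Pool.Agent.N979.CP.COMb

/-!
# Project P1, leaf LINA: linear algebra (helper581)
-/

set_option autoImplicit false

open MeasureTheory Metric Set Filter Topology InnerProductGeometry Matrix

namespace Pool.Agent.N581.P1_LINA

open Pool.Agent.H241R3.FV Pool.Agent.N526.CP Pool.Agent.N979.P1

theorem act_mul {n : ℕ} (B C : Matrix (Fin n) (Fin n) ℝ) (v : E n) :
    act B (act C v) = act (B * C) v := by
  ext i
  simp only [act, Matrix.mul_apply, Finset.sum_mul, Finset.mul_sum]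
  rw [Finset.sum_comm]
  refine Finset.sum_congr rfl fun j _ => Finset.sum_congr rfl fun k _ => ?_
  ring

theorem act_one {n : ℕ} (v : E n) : act (1 : Matrix (Fin n) (Fin n) ℝ) v = v := by
  ext i
  simp [act, Matrix.one_apply]

/-- an invertible matrix as a continuous linear equivalence -/
noncomputable def ce {n : ℕ} (B C : Matrix (Fin n) (Fin n) ℝ) (h1 : B * C = 1) (h2 : C * B = 1) :
    E n ≃L[ℝ] E n :=
  LinearEquiv.toContinuousLinearEquiv
    { toFun := fun v => act B v
      map_add' := fun u v => by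
        ext i
        simp [act, mul_add, Finset.sum_add_distrib]
      map_smul' := fun c v => by
        ext i
        simp only [act, PiLp.smul_apply, smul_eq_mul, RingHom.id_apply, Finset.mul_sum]
        refine Finset.sum_congr rfl fun j _ => ?_
        ring
      invFun := fun v => act C v
      left_inv := fun v => by
        show act C (act B v) = v
        rw [act_mul, h2, act_one]
      right_inv := fun v => by
        show act B (act C v) = v
        rw [act_mul, h1, act_one] }

theorem ce_apply {n : ℕ} (B C : Matrix (Fin n) (Fin n) ℝ) (h1 : B * C = 1) (h2 : C * B = 1)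
    (v : E n) : ce B C h1 h2 v = act B v := rfl

theorem dt_act (B : Matrix (Fin 2) (Fin 2) ℝ) (u v : E 2) :
    dt (act B u) (act B v) = B.det * dt u v := by
  simp only [dt, act, Matrix.det_fin_two, Fin.sum_univ_two]
  ring

theorem main : S_LINA := by
  intro k z α G _ hα hG hb
  obtain ⟨A, hA, hdet, hdet'⟩ := Pool.Agent.N979.CP.COMb.exists_root G hG
  have hu : IsUnit A.det := isUnit_iff_ne_zero.2 hdet.ne'
  have hB1 : Aᵀ * (A⁻¹)ᵀ = 1 := by
    rw [← Matrix.transpose_mul, nonsing_inv_mul _ hu, Matrix.transpose_one]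
  have hB2 : (A⁻¹)ᵀ * Aᵀ = 1 := by
    rw [← Matrix.transpose_mul, mul_nonsing_inv _ hu, Matrix.transpose_one]
  have hcont : Continuous (fun v : E 2 => act Aᵀ v) := (ce Aᵀ (A⁻¹)ᵀ hB1 hB2).continuous
  refine ⟨fun θ => act Aᵀ (α θ), hcont.measurable.comp hα, ?_, ?_⟩
  · filter_upwards [hb] with θ hθ
    exact Pool.Agent.N979.CP.COMb.norm_le_one G A hA (α θ) hθ
  · have hJ : Jk k z (fun θ => act Aᵀ (α θ)) = A.det * Jk k z α := by
      unfold Jk
      rw [← integral_const_mul]
      refine integral_congr_ae (Eventually.of_forall fun θ => ?_)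
      have h1 : (∫ θ' : Sph 2, (fderiv ℝ (fun w => k (Ax θ w)) z (θ' : E 2)) • act Aᵀ (α θ')
          ∂(sg 2)) = act Aᵀ (∫ θ' : Sph 2, (fderiv ℝ (fun w => k (Ax θ w)) z (θ' : E 2)) • α θ'
          ∂(sg 2)) := by
        rw [← ce_apply Aᵀ (A⁻¹)ᵀ hB1 hB2, ← ContinuousLinearEquiv.integral_comp_comm]
        refine integral_congr_ae (Eventually.of_forall fun θ' => ?_)
        show _ = (ce Aᵀ (A⁻¹)ᵀ hB1 hB2) _
        rw [map_smul, ce_apply]
      show dt (∫ θ' : Sph 2, (fderiv ℝ (fun w => k (Ax θ w)) z (θ' : E 2)) • act Aᵀ (α θ')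
          ∂(sg 2)) (act Aᵀ (α θ)) = A.det * dt (∫ θ' : Sph 2,
            (fderiv ℝ (fun w => k (Ax θ w)) z (θ' : E 2)) • α θ' ∂(sg 2)) (α θ)
      rw [h1, dt_act, Matrix.det_transpose]
    rw [hJ, abs_mul, abs_of_pos hdet, ← mul_assoc, mul_comm (√G.det), hdet', one_mul]

end Pool.Agent.N581.P1_LINA
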